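import Pool.Agent.helper24.BP.Final

/-!
# Strictness of the guess hierarchy for nonuniform random-access machines of linear time and space
-/

namespace Pool.Agent.Results.MP_cd574d_lc.BranchingGuessHierarchy

open Pool.Agent.helper24.BP

/-- **Guesses cannot be traded for time and memory on random-access machines.**  For all
`0 ≤ a < 1` and `b > a` there are problems `f n` about inputs of `n` words over an alphabet of
`W n ≤ (n + 2) ^ 16` letters and a constant `c > 0` such that

* `f n` is decided by a nondeterministic random-access machine with polynomially many states, in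
  `O(n ^ b)` steps and with `O(n ^ b)` guessed bits;
* for every `C`, all large `n` and all integers `1 ≤ k ≤ c log n`, no nondeterministic
  random-access machine with at most `exp (c ^ k n log n)` states decides `f n` in `k n` steps with
  `C (n + 1) ^ a` guessed bits. -/
theorem result {a b : ℝ} (ha : 0 ≤ a) (ha1 : a < 1) (hab : a < b) :
    ∃ (W : ℕ → ℕ) (f : ∀ n, (Fin n → Fin (W n)) → Prop), (∀ n, W n ≤ (n + 2) ^ 16) ∧
      (∃ C : ℕ, ∀ n, 1 ≤ n → ∃ M : Machine n (W n), M.size ≤ (n + 2) ^ C ∧
        Computes M (f n) (C * ((n : ℝ) + 1) ^ b) (C * ((n : ℝ) + 1) ^ b)) ∧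
      ∃ c : ℝ, 0 < c ∧ ∀ C : ℝ, ∀ᶠ n : ℕ in Filter.atTop, ∀ k : ℕ, 1 ≤ k →
        (k : ℝ) ≤ c * Real.log n → ∀ M : Machine n (W n),
        (M.size : ℝ) ≤ Real.exp (c ^ k * n * Real.log n) →
        ¬ Computes M (f n) (k * n) (C * ((n : ℝ) + 1) ^ a) :=
  final ha ha1 hab

end Pool.Agent.Results.MP_cd574d_lc.BranchingGuessHierarchy
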