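import Pool.Agent.ACG.Hierarchy

/-!
# The guess hierarchy is strict for circuits of constant depth

`Fn U` is the set of Boolean functions of the variables `U`. `Circuit S d f` says that `f` is
computed by a gate of a circuit with at most `S` gates and depth at most `d`: unbounded fan-in OR
and AND, free inputs (constants and literals) and free negations. `Guess S d g f` says that such a
circuit reads the input `x` and `g` guessed bits `y` and that `f x = 1` if and only if some guess
is accepted (`Pool.Agent.ACG.Model`).

`Csp t l` is the constraint satisfaction problem with `t` variables, which take `2 ^ l` values, and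
`3 * t` constraints on three variables each, given by their variables and by the table of the
allowed values; `Ins t l` is the set of its input bits (`Pool.Agent.ACG.CspModel`).

* `Csp t l` is computed by circuits of depth three with `21 * t ^ 2 * 8 ^ l + 1` gates and `t * l`
  guessed bits (the values of the variables).
* If `C * d ^ 2 ≤ t` and `(C * d * t) ^ (C * d) ≤ 2 ^ l`, a circuit of depth `d` with `S` gates and
  `g` guessed bits for `Csp t l` satisfies `2 ^ (t * l) ≤ (2 ^ g * S) ^ (C * d ^ 2)`: up to the
  factor `C * d ^ 2` in the exponent, guesses cannot be replaced by gates in a better way than by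
  trying all of them.
* Hence, whenever `g n + log n = o (G n)` and `G n = n ^ o(1)`, there are instance sizes with at
  most `n` input bits for which `G n` guessed bits suffice for circuits of depth three with `n`
  gates, while `g n` guessed bits do not suffice for circuits of constant depth `d` with
  `(n * 2 ^ g n) ^ m` gates.
-/

namespace Pool.Agent.Results.MP_cd574d_lc.ConstantDepthGuessHierarchy

open Pool.Agent.ACG Filter

/-- **The hierarchy of guessed bits is strict for constant depth circuits.** -/
theorem result :
    (∀ t l : ℕ, Guess (21 * t ^ 2 * 8 ^ l + 1) 3 (t * l) (Csp t l)) ∧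
    (∃ C : ℕ, ∀ d t l S g : ℕ, C * d ^ 2 ≤ t → (C * d * t) ^ (C * d) ≤ 2 ^ l →
      Guess S d g (Csp t l) → 2 ^ (t * l) ≤ (2 ^ g * S) ^ (C * d ^ 2)) ∧
    (∀ g G : ℕ → ℕ, (∀ m : ℕ, ∀ᶠ n in atTop, m * (g n + Nat.log 2 n) ≤ G n) →
      (∀ m : ℕ, ∀ᶠ n in atTop, G n ^ m ≤ n) → ∃ t l : ℕ → ℕ,
        (∀ᶠ n in atTop, Fintype.card (Ins (t n) (l n)) ≤ n ∧
          Guess n 3 (G n) (Csp (t n) (l n))) ∧
        ∀ d m : ℕ, ∀ᶠ n in atTop, ¬ Guess ((n * 2 ^ g n) ^ m) d (g n) (Csp (t n) (l n))) :=
  csp_result

end Pool.Agent.Results.MP_cd574d_lc.ConstantDepthGuessHierarchy
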