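import Pool.Agent.helper81.NL.Lower
import Pool.Agent.helper81.NL.Upper
import Pool.Agent.helper81.NL.Sharp
import Pool.Agent.helper96.NLG.PreLower

set_option autoImplicit false

/-!
# Guess bits against NOT gates: the sharp threshold for the clique problem
-/

namespace Pool.Agent.Results.MP_cd574d_lc.NegationGuessHierarchy

open Pool.Agent.helper81.NL Pool.Agent.helper96.NLG

/-- **Nondeterministic circuits with few negations: the sharp threshold.**  Circuits with AND, OR and NOT
gates read a graph on `n` vertices (`n ^ 2` bits) and `g` guess bits (both literals of each), and accept the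
graph if some guess makes them output `true`.

1. For every `ε > 0` there is `c > 0` such that for `n` large and `n ^ ε ≤ k ≤ n / 2`, circuits deciding
   whether there is a clique with `k` vertices have at least `2 ^ (n ^ c)` gates, if the number of guess
   bits plus the number of NOT gates is at most `(2 - ε) log₂ n`, or if the number of NOT gates is at most
   `(2 - ε) log₂ n`, the number of guess bits is at most `n ^ c`, and no NOT gate depends on a guess.
2. They have superpolynomially many gates, at least `n ^ ((log₂ n) / 2)`, as long as the sum of the two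
   numbers is at most `2 log₂ n - 28 log₂ log₂ n`.
3. With `k ⌈log₂ n⌉` guess bits, a polynomial number of gates and no NOT gate suffice.
4. Every circuit is equivalent to a circuit with `⌈log₂ (n ^ 2 + 1)⌉` more guess bits and at most one NOT
   gate, of polynomially related size. So the threshold in 1 and 2 is sharp. -/
theorem result :
    (∀ ε : ℝ, 0 < ε → ∃ c : ℝ, 0 < c ∧ ∃ n₀ : ℕ, ∀ n ≥ n₀, ∀ k g : ℕ,
      (n : ℝ) ^ ε ≤ k → 2 * k ≤ n →
      ∀ C : List (Gate ((Fin n × Fin n) ⊕ (Fin g × Bool))), GuessClique n k g C →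
        ((g : ℝ) + negations C ≤ (2 - ε) * Real.logb 2 n ∨
          ((negations C : ℝ) ≤ (2 - ε) * Real.logb 2 n ∧ (g : ℝ) ≤ (n : ℝ) ^ c ∧ NotsFirst C)) →
        (2 : ℝ) ^ ((n : ℝ) ^ c) ≤ C.length) ∧
    (∃ n₀ : ℕ, ∀ n ≥ n₀, ∀ k g : ℕ, Nat.log 2 n ^ 7 ≤ k → 2 * k ≤ n →
      ∀ C : List (Gate ((Fin n × Fin n) ⊕ (Fin g × Bool))), GuessClique n k g C →
        2 ^ (g + negations C) * Nat.log 2 n ^ 28 ≤ n ^ 2 → n ^ (Nat.log 2 n / 2) ≤ C.length) ∧
    (∀ n k : ℕ, ∃ C : List (Gate ((Fin n × Fin n) ⊕ (Fin (k * Nat.clog 2 n) × Bool))),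
      negations C = 0 ∧ C.length ≤ 20 * (n + k + 1) ^ 5 ∧ GuessClique n k (k * Nat.clog 2 n) C) ∧
    (∀ (n g : ℕ) (C : List (Gate ((Fin n × Fin n) ⊕ (Fin g × Bool)))),
      ∃ C' : List (Gate ((Fin n × Fin n) ⊕ (Fin (g + Nat.clog 2 (n ^ 2 + 1)) × Bool))),
        negations C' ≤ 1 ∧ C'.length ≤ 4 * C.length + 100 * (n ^ 2 + 1) ^ 3 ∧
        ∀ x : Fin n × Fin n → Bool, Accepts C' x ↔ Accepts C x) := by
  refine ⟨fun ε hε => ?_, lower_log, clique_upper, fun n g C => ?_⟩
  · obtain ⟨c₁, hc₁, n₁, h₁⟩ := lower_exp ε hε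
    obtain ⟨c₂, hc₂, n₂, h₂⟩ := pre_lower ε hε
    refine ⟨min c₁ c₂, lt_min hc₁ hc₂, max (max n₁ n₂) 1, fun n hn k g hk hkn C hC h => ?_⟩
    have hn1 : n₁ ≤ n := le_trans (le_trans (le_max_left _ _) (le_max_left _ _)) hn
    have hn2 : n₂ ≤ n := le_trans (le_trans (le_max_right _ _) (le_max_left _ _)) hn
    have hn3 : (1 : ℝ) ≤ n := by exact_mod_cast le_trans (le_max_right _ _) hn
    have hle : ∀ c, min c₁ c₂ ≤ c → (n : ℝ) ^ min c₁ c₂ ≤ (n : ℝ) ^ c := fun c hc =>
      Real.rpow_le_rpow_of_exponent_le hn3 hc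
    rcases h with h | ⟨hs, hg, hN⟩
    · exact (Real.rpow_le_rpow_of_exponent_le (by norm_num) (hle c₁ (min_le_left _ _))).trans
        (h₁ n hn1 k g hk hkn C hC (Or.inl h))
    · exact (Real.rpow_le_rpow_of_exponent_le (by norm_num) (hle c₂ (min_le_right _ _))).trans
        (h₂ n hn2 k g hk hkn C hC hN hs (hg.trans (hle c₂ (min_le_right _ _))))
  · have h := sharp g C
    have hcard : Fintype.card (Fin n × Fin n) = n ^ 2 := by
      rw [Fintype.card_prod, Fintype.card_fin]
      ring
    rw [hcard] at h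
    exact h

end Pool.Agent.Results.MP_cd574d_lc.NegationGuessHierarchy
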