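import Pool.Agent.helper24.OT.Final2
import Pool.Agent.helper24.OT.ModE

/-!
# Strictness of the bounded-nondeterminism hierarchy for machines with time * space < n^2
-/

namespace Pool.Agent.Results.MP_cd574d_lc.TimeSpaceGuessHierarchy

open Pool.Agent.helper24.OT

/-- **Guesses cannot be traded for time and space, if time times space is subquadratic.**  For all
`σ > 1`, `0 ≤ a < 1`, `b > a` and `θ < 2` with `θ < σ + 1 - a` there is one language which is
accepted by a multi-tape nondeterministic machine in time `O(n^σ)` and space `O(log n)` with `O(n^b)`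
nondeterministic steps, but by no multi-tape nondeterministic machine in time `O(n^τ)` and space
`O(n^μ)` with `O(n^a)` nondeterministic steps, for any `τ ≥ 1`, `μ ≥ 0` with `τ + μ ≤ θ`; nor by
one-tape machines in time `O(n^τ)` with `O(n^a)` nondeterministic steps which are given `O(n^μ)` bits
of additional memory and may depend on the input length. -/
theorem result {σ θ a b : ℝ} (hσ : 1 < σ) (hθ : θ < 2) (ha : 0 ≤ a) (ha1 : a < 1) (hab : a < b)
    (h : θ < σ + 1 - a) :
    ∃ L : Set (List (Fin 5)), L ∈ TLG (Fin 5) σ b ∧ ∀ τ μ : ℝ, 1 ≤ τ → 0 ≤ μ → τ + μ ≤ θ →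
      L ∉ TSG (Fin 5) τ a μ ∧ L ∉ NDM (Fin 5) τ a μ := by
  obtain ⟨u, v, w, hw, h1, h2, h3, h4⟩ := exists_params hσ hθ ha ha1 hab h
  obtain ⟨M, c, hM1, hM2⟩ := Pg.moduleE (u + v + w) u v (by omega) (by omega)
  refine ⟨_, mem_upper2 (N := u + v + w) (u := u) (v := v) (by omega) h2 h3 hM1, ?_⟩
  intro τ μ hτ hμ hτμ
  have key : {w | ∃ T G S, M.AcceptsIn w T G S} ∉ NDM (Fin 5) τ a μ := by
    refine not_mem (u := u) (v := v) (w := w) hw hτ ha ha1 hμ h1 ?_ ?_
    · refine h4.trans_le (mul_le_mul_of_nonneg_right (by linarith) (by positivity))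
    intro t z
    refine hM2 (2 ^ (v * t)) (2 ^ (u * t)) (2 ^ (w * t)) (t + 1) z Nat.one_le_two_pow
      Nat.one_le_two_pow Nat.one_le_two_pow (by omega) ?_ ?_ ?_
    · rw [← pow_succ']
      exact Nat.pow_le_pow_right (by norm_num) (by nlinarith)
    · rw [← pow_succ']
      exact Nat.pow_le_pow_right (by norm_num) (by nlinarith)
    · rw [length_word, Nat.add_sub_cancel]
      have e : 2 ^ ((u + v + w) * t) = 2 ^ (v * t) * (2 ^ (u * t) * 2 ^ (w * t)) := by
        rw [← pow_add, ← pow_add]; congr 1; ring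
      rw [e]
      nlinarith [Nat.zero_le (2 ^ (v * t) * (2 ^ (u * t) * 2 ^ (w * t))),
        Nat.zero_le (2 ^ (v * t) * 2 ^ (u * t)), Nat.zero_le (2 ^ (v * t))]
  exact ⟨fun hc => key (TSG_subset_NDM hμ hc), key⟩

end Pool.Agent.Results.MP_cd574d_lc.TimeSpaceGuessHierarchy
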